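import Pool.Agent.H91.EL.Turing
import Pool.Agent.H88.RO.Final

set_option autoImplicit false

/-! # Writing an exponentially long clock -/

namespace Pool.Agent.H43.RT

open Pool.Agent.H88.RO Pool.Agent.H88.RO.Tr Pool.Agent.H65.TS Pool.Agent.H65.NU

variable {O : List Bool → Bool}

/-- doubling of numerals -/
def dblN (s : Tr) : Tr := addU s s

theorem FP_dblN : FP O dblN := FP.addU' FP.id' FP.id'

theorem dblN_iter (m : ℕ) : dblN^[m] (num 1) = num (2 ^ m) := by
  induction m with
  | zero => rfl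
  | succ m ih =>
    rw [Function.iterate_succ_apply', ih, dblN, addU_num, pow_succ, mul_two]

/-- A program which writes the clock `2 ^ P |x|` in front of `x`, in time polynomial in this
clock. -/
theorem exists_clock (O : List Bool → Bool) (P : Polynomial ℕ) : ∃ (c : Prog) (Q : Polynomial ℕ),
    ∀ x : List Bool, ∃ t ≤ Q.eval (2 ^ P.eval x.length + x.length),
      Eval O c (enc x) (node (num (2 ^ P.eval x.length)) (enc x)) t := by
  obtain ⟨PT, hP1, hP2⟩ := exists_polyT P
  obtain ⟨cI, qI, hI⟩ := FP.node' (O := O) (hP2 O _ FP.id') (FP.const' (num 1))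
  obtain ⟨cD, qD, hD⟩ := FP_dblN (O := O)
  refine ⟨Prog.pair (Prog.comp (Prog.loop (FP.loopBody cD)) cI) Prog.id,
    qI.comp (4 * Polynomial.X + 1) + (Polynomial.X + 1) * (qD.comp (2 * Polynomial.X + 1) +
      7 * (4 * Polynomial.X + 4)) + 12 * Polynomial.X + 12, fun x => ?_⟩
  set n := x.length with hn
  set m := P.eval n with hm
  obtain ⟨t1, ht1, he1⟩ := hI (enc x)
  simp only [hP1, len_enc] at he1
  obtain ⟨t2, ht2, he2⟩ := FP.eval_loop hD (2 * 2 ^ m + 1) (num m) (num 1) (by
    intro i hi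
    rw [len_num] at hi
    rw [dblN_iter, size_num]
    have : 2 ^ i ≤ 2 ^ m := Nat.pow_le_pow_right (by norm_num) hi
    omega)
  rw [len_num, dblN_iter] at he2
  rw [len_num, size_num] at ht2
  refine ⟨_, ?_, Eval.pair (Eval.comp he1 he2) (Eval.id _)⟩
  have hx := size_enc_le x
  have h3 : m < 2 ^ m := Nat.lt_two_pow_self
  have h1 : qI.eval (size (enc x)) ≤ qI.eval (4 * (2 ^ m + n) + 1) := poly_mono _ (by omega)
  have h2 : qD.eval (2 * 2 ^ m + 1) ≤ qD.eval (2 * (2 ^ m + n) + 1) := poly_mono _ (by omega)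
  have h4 : (m + 1) * (qD.eval (2 * 2 ^ m + 1) + 7 * (2 * m + 1 + (2 * 2 ^ m + 1) + 2)) ≤
      (2 ^ m + n + 1) * (qD.eval (2 * (2 ^ m + n) + 1) + 7 * (4 * (2 ^ m + n) + 4)) :=
    Nat.mul_le_mul (by omega) (by omega)
  simp only [Polynomial.eval_add, Polynomial.eval_mul, Polynomial.eval_comp, Polynomial.eval_X,
    Polynomial.eval_one, Polynomial.eval_ofNat]
  omega

end Pool.Agent.H43.RT
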