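import Pool.Agent.H43.RT.Red

set_option autoImplicit false

/-!
# Relative to a random oracle no total NP search problem is complete under Turing reductions
-/

namespace Pool.Agent.H43.RT

open Pool.Agent.H88.RO MeasureTheory
open Pool.Agent.H65.EW (TuringWithin TuringRed turingWithin_of_reducesWithin)

/-- **Turing form of the main theorem of `Pool.Agent.H88.RO.Final`.** -/
theorem main_turing (B : List Bool → Bool) : ∀ᵐ A ∂randomOracle,
    ∀ (T : TFNP (join A B)) (κ : ℕ), ∃ S : TFNP (join A B),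
      ¬ S.Reduces T ∧ ¬ TuringRed S T ∧ ∀ C : ℕ,
        ¬ S.ReducesWithin (fun n => C * 2 ^ n ^ κ) T ∧
        ¬ TuringWithin (fun n => C * 2 ^ n ^ κ) S T := by
  filter_upwards [main B] with A hA
  intro T κ
  obtain ⟨H, hH⟩ := exists_hist_within T
  obtain ⟨S, _, hS⟩ := hA H (κ + 2)
  have h1 : ∀ C, ¬ TuringWithin (fun n => C * 2 ^ n ^ (κ + 1)) S T := by
    intro C hC
    obtain ⟨C', h⟩ := hH S κ C hC
    exact hS C' h
  have hpow : ∀ j ≤ κ + 1, ∀ n, 2 ^ n ^ j ≤ 2 * 2 ^ n ^ (κ + 1) := by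
    intro j hj n
    rcases Nat.eq_zero_or_pos n with rfl | hn
    · rcases Nat.eq_zero_or_pos j with rfl | hj0
      · simp
      · rw [zero_pow (by omega), zero_pow (by omega)]; norm_num
    · have h2 : n ^ j ≤ n ^ (κ + 1) := Nat.pow_le_pow_right hn hj
      have h3 : 2 ^ n ^ j ≤ 2 ^ n ^ (κ + 1) := Nat.pow_le_pow_right (by norm_num) h2
      omega
  have h2 : ∀ j ≤ κ + 1, ∀ C, ¬ TuringWithin (fun n => C * 2 ^ n ^ j) S T := by
    intro j hj C hC
    refine h1 (C * 2) (hC.mono fun n => ?_)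
    rw [mul_assoc]
    exact Nat.mul_le_mul_left _ (hpow j hj n)
  have h3 : ∀ j ≤ κ + 1, ∀ C, ¬ S.ReducesWithin (fun n => C * 2 ^ n ^ j) T := by
    intro j hj C hC
    refine h2 j hj (40 * C + 100) ((turingWithin_of_reducesWithin hC).mono fun n => ?_)
    have : 1 ≤ 2 ^ n ^ j := Nat.one_le_two_pow
    nlinarith
  refine ⟨S, fun hr => ?_, fun hr => ?_, fun C => ⟨h3 κ (by omega) C, h2 κ (by omega) C⟩⟩
  · obtain ⟨C, hC⟩ := reducesWithin_of_reduces hr
    exact h3 1 (by omega) C hC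
  · obtain ⟨r, hr⟩ := hr
    obtain ⟨C, hC⟩ := exists_exp_bound r
    refine h2 1 (by omega) C (hr.mono fun n => ?_)
    simpa using hC n

end Pool.Agent.H43.RT
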