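import Pool.Agent.H43.RT.Dbl
import Pool.Agent.H65.EW.TDef

set_option autoImplicit false

/-!
# Turing reductions in exponential time to `T` are many-one reductions to the problem of the
# histories of the computations with questions to `T`
-/

namespace Pool.Agent.H43.RT

open Pool.Agent.H88.RO Pool.Agent.H88.RO.Tr Pool.Agent.H65.TS Pool.Agent.H65.NU
open Pool.Agent.H91.EL
open Pool.Agent.H65.EW (Hst TuringWithin TuringRed turingWithin_of_reducesWithin)

variable {O : List Bool → Bool}

/-! ### looking for the first prefix at which the program gives a solution -/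

/-- `node tt w` if the program `C` says at the history `g` that `w` is a solution, `leaf` else -/
def res (O : List Bool → Bool) (C K X g : Tr) : Tr :=
  cs (U O C (node X g) (len K)) leaf
    (cs (fst (snd (U O C (node X g) (len K))))
      (node tt (snd (snd (U O C (node X g) (len K))))) leaf)

theorem res_sol {C K X g w : Tr} (h : U O C (node X g) (len K) = node leaf (node leaf w)) :
    res O C K X g = node tt w := by
  unfold res
  rw [h]
  simp only [snd_node, fst_node]
  rw [cs_neg _ _ (by simp), cs_pos _ _ rfl]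

theorem res_que {C K X g s : Tr} (h : U O C (node X g) (len K) = node leaf (node tt s)) :
    res O C K X g = leaf := by
  unfold res
  rw [h]
  simp only [snd_node, fst_node]
  rw [cs_neg _ _ (by simp), cs_neg _ _ tt_ne]

theorem size_res (C K X g : Tr) : size (res O C K X g) ≤ len K + 4 := by
  unfold res
  rcases U_cases C (node X g) (len K) (O := O) with h | ⟨w, h⟩
  · rw [cs_pos _ _ h]; simp [size]
  · have h1 := size_of_U h
    rw [h, cs_neg _ _ (by simp)]
    simp only [snd_node]
    have h2 := size_snd_le w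
    unfold cs
    split_ifs
    · simp only [size, tt]; omega
    · simp [size]

/-- keep the newest value -/
def up (O : List Bool → Bool) (C K X g b : Tr) : Tr := cs (res O C K X g) b (res O C K X g)

/-- the value at the shortest history with a value -/
def find (O : List Bool → Bool) (C K X : Tr) : Tr → Tr → Tr
  | leaf, b => up O C K X leaf b
  | node a g, b => find O C K X g (up O C K X (node a g) b)

/-- one step; states are `node (node C (node K X)) (node g b)` -/
def fstep (O : List Bool → Bool) (s : Tr) : Tr :=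
  node (fst s) (node (snd (fst (snd s)))
    (up O (fst (fst s)) (fst (snd (fst s))) (snd (snd (fst s))) (fst (snd s)) (snd (snd s))))

theorem fstep_node (C K X g b : Tr) : fstep O (node (node C (node K X)) (node g b)) =
    node (node C (node K X)) (node (snd g) (up O C K X g b)) := rfl

theorem fstep_iter (C K X h : Tr) : ∀ b,
    (fstep O)^[len h + 1] (node (node C (node K X)) (node h b)) =
      node (node C (node K X)) (node leaf (find O C K X h b)) := by
  induction h with
  | leaf => intro b; rfl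
  | node a g _ ih =>
    intro b
    rw [len, Function.iterate_succ_apply, fstep_node, snd_node, ih]
    rfl

/-- the value found in the history `h` -/
def findT (O : List Bool → Bool) (C K X h : Tr) : Tr :=
  snd (snd ((fstep O)^[len (node leaf h)] (node (node C (node K X)) (node h leaf))))

theorem findT_eq (C K X h : Tr) : findT O C K X h = find O C K X h leaf := by
  unfold findT
  rw [len, fstep_iter]
  rfl

theorem fstep_bound (x : Tr) (i : ℕ) : (fstep O)^[i] x = x ∨
    ∃ g b, (fstep O)^[i] x = node (fst x) (node g b) ∧ size g ≤ size x ∧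
      size b ≤ size x + 4 := by
  induction i with
  | zero => exact Or.inl rfl
  | succ i ih =>
    have key : ∀ g b : Tr, size g ≤ size x → size b ≤ size x + 4 →
        ∃ g' b', node (fst x) (node (snd g)
          (up O (fst (fst x)) (fst (snd (fst x))) (snd (snd (fst x))) g b)) =
          node (fst x) (node g' b') ∧ size g' ≤ size x ∧ size b' ≤ size x + 4 := by
      intro g b hg hb
      refine ⟨_, _, rfl, (size_snd_le g).trans hg, ?_⟩
      unfold up cs
      split_ifs
      · exact hb
      · refine (size_res _ _ _ _).trans ?_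
        have h1 := len_le_size (fst (snd (fst x)))
        have h2 := size_fst_le (snd (fst x))
        have h3 := size_snd_le (fst x)
        have h4 := size_fst_le x
        omega
    rw [Function.iterate_succ_apply']
    right
    rcases ih with h | ⟨g, b, h, hg, hb⟩
    · rw [h]
      refine key (fst (snd x)) (snd (snd x)) ((size_fst_le _).trans (size_snd_le _)) ?_
      have h1 := size_snd_le (snd x)
      have h2 := size_snd_le x
      omega
    · rw [h]
      exact key g b hg hb

theorem FP.res' {C K X g : Tr → Tr} (hC : FP O C) (hK : FP O K) (hX : FP O X) (hg : FP O g) :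
    FP O (fun v => res O (C v) (K v) (X v) (g v)) := by
  have h1 := FP.U' hC (FP.node' hX hg) hK
  exact FP.cs' h1 FP.leaf' (FP.cs' (FP.fst' (FP.snd' h1)) (FP.node' (FP.const' tt)
    (FP.snd' (FP.snd' h1))) FP.leaf')

theorem FP_fstep : FP O (fstep O) := by
  have h1 : FP O (fun s => fst s) := FP.fst' FP.id'
  have h2 : FP O (fun s => snd s) := FP.snd' FP.id'
  have h3 := FP.res' (FP.fst' h1) (FP.fst' (FP.snd' h1)) (FP.snd' (FP.snd' h1)) (FP.fst' h2)
  exact FP.node' h1 (FP.node' (FP.snd' (FP.fst' h2)) (FP.cs' h3 (FP.snd' h2) h3))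

theorem FP.findT' {C K X h : Tr → Tr} (hC : FP O C) (hK : FP O K) (hX : FP O X) (hh : FP O h) :
    FP O (fun v => findT O (C v) (K v) (X v) (h v)) := by
  have h1 : FP O (fun v => (fstep O)^[len (node leaf (h v))]
      (node (node (C v) (node (K v) (X v))) (node (h v) leaf))) := by
    refine FP.iterate' FP_fstep (FP.node' FP.leaf' hh) (FP.node' (FP.node' hC
      (FP.node' hK hX)) (FP.node' hh FP.leaf')) ⟨3 * Polynomial.X + 10, fun n x i _ => ?_⟩
    simp only [Polynomial.eval_add, Polynomial.eval_mul, Polynomial.eval_ofNat,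
      Polynomial.eval_X]
    rcases fstep_bound (O := O) x i with h | ⟨g, b, h, hg, hb⟩
    · rw [h]; omega
    · rw [h]
      simp only [size]
      have := size_fst_le x
      omega
  exact FP.snd' (FP.snd' h1)

/-! ### correctness -/

/-- The value found in a complete history of a correct reduction is a solution. -/
theorem find_spec {S T : TFNP O} {c : Prog} {x : List Bool} {τ K : ℕ}
    (hred : ∀ h, Hst O T.IsSol c x h →
      (∃ w, (∃ u ≤ τ, Eval O c (node (enc x) h) (node leaf (enc w)) u) ∧ S.IsSol x w) ∨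
      (len h < τ ∧ ∃ s, ∃ u ≤ τ, Eval O c (node (enc x) h) (node tt (enc s)) u))
    (hK0 : τ ≤ K) (hK1 : (size (code c) + 10) * τ + 10 ≤ K)
    (hK2 : (size (code (Prog.comp Prog.snd c)) + 10) * (4 * τ + 1) + 10 ≤ K) {h : Tr}
    (h1 : HN O T.IsSol (code (Prog.comp Prog.snd c)) K x h)
    (h2 : Fin O (code (Prog.comp Prog.snd c)) leaf K K x (fun _ => False) h) :
    ∃ w, S.IsSol x w ∧ find O (code c) (num K) (enc x) h leaf = node tt (enc w) := by
  -- the runs of the two programs
  have runs : ∀ g w u, u ≤ τ → Eval O c (node (enc x) g) (node leaf (enc w)) u →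
      res O (code c) (num K) (enc x) g = node tt (enc w) := by
    intro g w u hu he
    refine res_sol ?_
    rw [len_num]
    exact U_eq he ((Nat.add_le_add_right (Nat.mul_le_mul_left _ hu) _).trans hK1)
  have runq : ∀ g s u, u ≤ τ → Eval O c (node (enc x) g) (node tt (enc s)) u →
      res O (code c) (num K) (enc x) g = leaf ∧
        U O (code (Prog.comp Prog.snd c)) (node (enc x) g) K = node leaf (enc s) := by
    intro g s u hu he
    constructor
    · refine res_que (s := enc s) ?_
      rw [len_num]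
      exact U_eq he ((Nat.add_le_add_right (Nat.mul_le_mul_left _ hu) _).trans hK1)
    · refine U_eq (Eval.comp he (Eval.snd _)) (le_trans (Nat.add_le_add_right
        (Nat.mul_le_mul_left _ ?_) _) hK2)
      have e1 := he.size_le
      have e2 := he.cost_ge
      omega
  have key : ∀ g, HN O T.IsSol (code (Prog.comp Prog.snd c)) K x g →
      (Hst O T.IsSol c x g ∧ ∀ b, find O (code c) (num K) (enc x) g b =
        up O (code c) (num K) (enc x) g b) ∨
      (∃ w, S.IsSol x w ∧ ∀ b, find O (code c) (num K) (enc x) g b = node tt (enc w)) := by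
    intro g hg
    induction hg with
    | nil => exact Or.inl ⟨Hst.nil, fun b => rfl⟩
    | @cons g y hg hq hy ih =>
      rcases ih with ⟨ih1, ih2⟩ | ⟨w, hw, ih⟩
      · rcases hred g ih1 with ⟨w, ⟨u, hu, he⟩, hw⟩ | ⟨hl, s, u, hu, he⟩
        · right
          refine ⟨w, hw, fun b => ?_⟩
          rw [find, ih2, up, runs g w u hu he, cs_neg _ _ (by simp)]
        · left
          obtain ⟨e1, e2⟩ := runq g s u hu he
          constructor
          · rw [e2, snd_node, dec_enc] at hy
            exact Hst.cons ih1 he hy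
          · intro b
            rw [find, ih2, up, e1, cs_pos _ _ rfl]
      · exact Or.inr ⟨w, hw, fun b => by rw [find, ih]⟩
  rcases key h h1 with ⟨h3, h4⟩ | ⟨w, hw, h3⟩
  · rcases hred h h3 with ⟨w, ⟨u, hu, he⟩, hw⟩ | ⟨hl, s, u, hu, he⟩
    · exact ⟨w, hw, by rw [h4, up, runs h w u hu he, cs_neg _ _ (by simp)]⟩
    · exfalso
      obtain ⟨_, e2⟩ := runq h s u hu he
      rcases h2 with ⟨_, h5⟩ | ⟨h5, _⟩
      · rw [e2] at h5; cases h5
      · omega
  · exact ⟨w, hw, h3 leaf⟩

/-! ### numbers -/

/-- the exponents -/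
theorem exponent_bound (e κ D n : ℕ) :
    e * (n ^ (κ + 1) + D + n) ≤ n ^ (κ + 2) + ((2 * e) ^ (κ + 2) + e * D) := by
  have h1 : n ≤ n ^ (κ + 1) := Nat.le_self_pow (by omega) n
  have h2 : 2 * e * n ^ (κ + 1) ≤ n ^ (κ + 2) + (2 * e) ^ (κ + 2) := by
    rcases Nat.lt_or_ge n (2 * e) with hn | hn
    · refine le_trans ?_ (Nat.le_add_left _ _)
      rw [pow_succ (2 * e) (κ + 1), mul_comm]
      exact Nat.mul_le_mul_right _ (Nat.pow_le_pow_left hn.le _)
    · refine le_trans ?_ (Nat.le_add_right _ _)
      rw [pow_succ n (κ + 1), mul_comm]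
      exact Nat.mul_le_mul_left _ hn
  calc e * (n ^ (κ + 1) + D + n) ≤ e * (2 * n ^ (κ + 1) + D) := Nat.mul_le_mul_left _ (by omega)
    _ = 2 * e * n ^ (κ + 1) + e * D := by ring
    _ ≤ _ := by omega

/-- polynomials in the clock -/
theorem clock_bound (Q : Polynomial ℕ) (κ D : ℕ) : ∃ C', ∀ n,
    Q.eval (2 ^ (n ^ (κ + 1) + D + 1) + n) ≤ C' * 2 ^ n ^ (κ + 2) := by
  obtain ⟨e, he⟩ := exists_pow_bound Q
  refine ⟨2 ^ ((2 * e) ^ (κ + 2) + e * (D + 1)), fun n => ?_⟩
  set a := n ^ (κ + 1) + D + 1 with ha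
  have h1 : 2 ≤ 2 ^ a := by
    calc 2 = 2 ^ 1 := rfl
      _ ≤ 2 ^ a := Nat.pow_le_pow_right (by norm_num) (by omega)
  have h2 : 2 ^ a + n ≤ 2 ^ (a + n) := by
    have h3 : n + 1 ≤ 2 ^ n := Nat.lt_two_pow_self
    rw [pow_add 2 a n]
    generalize 2 ^ a = A at h1
    nlinarith
  calc Q.eval (2 ^ a + n) ≤ (2 ^ a + n) ^ e := he _ (by omega)
    _ ≤ (2 ^ (a + n)) ^ e := Nat.pow_le_pow_left h2 e
    _ = 2 ^ (e * (a + n)) := by rw [← pow_mul, mul_comm]
    _ ≤ 2 ^ (n ^ (κ + 2) + ((2 * e) ^ (κ + 2) + e * (D + 1))) :=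
        Nat.pow_le_pow_right (by norm_num) (exponent_bound e κ (D + 1) n)
    _ = _ := by rw [pow_add, mul_comm]

/-! ### the reduction -/

/-- **Turing reductions in time `C 2^(n^(κ+1))` to `T` give many-one reductions in time
`C' 2^(n^(κ+2))` to the problem of the histories of computations with questions to `T`.** -/
theorem exists_hist_within (T : TFNP O) : ∃ H : TFNP O, ∀ (S : TFNP O) (κ C : ℕ),
    TuringWithin (fun n => C * 2 ^ n ^ (κ + 1)) S T →
    ∃ C', S.ReducesWithin (fun n => C' * 2 ^ n ^ (κ + 2)) H := by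
  obtain ⟨TS, hF, hTS⟩ := exists_test T
  obtain ⟨H, hH⟩ := exists_hist hF hTS
  refine ⟨H, fun S κ C hS => ?_⟩
  obtain ⟨c, hc⟩ := hS
  set cq : Prog := Prog.comp Prog.snd c with hcq
  -- the clock `2 ^ (n ^ (κ + 1) + D + 1)`
  set D : ℕ := (size (code c) + 10) * C + 10 + ((size (code cq) + 10) * (4 * C + 1) + 10) with hD
  set P : Polynomial ℕ := Polynomial.X ^ (κ + 1) + Polynomial.C (D + 1) with hP
  have hPe : ∀ n, P.eval n = n ^ (κ + 1) + D + 1 := by
    intro n
    simp only [hP, Polynomial.eval_add, Polynomial.eval_pow, Polynomial.eval_X,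
      Polynomial.eval_C]
    omega
  have hclk : ∀ n, D * 2 ^ n ^ (κ + 1) ≤ 2 ^ P.eval n := by
    intro n
    rw [hPe, show n ^ (κ + 1) + D + 1 = (D + 1) + n ^ (κ + 1) by omega,
      pow_add 2 (D + 1) (n ^ (κ + 1))]
    refine Nat.mul_le_mul_right _ ?_
    exact (Nat.lt_two_pow_self (n := D)).le.trans (Nat.pow_le_pow_right (by norm_num) (by omega))
  obtain ⟨cC, QC, hC⟩ := exists_clock O P
  -- the instance
  set i : ℕ := sval (rpn (code cq)) with hi
  obtain ⟨cI, QI, hI⟩ := FP.insT' (O := O) (FP.fst' FP.id') (FP.fst' FP.id') (FP.const' (num i))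
    (FP.snd' FP.id')
  -- the solution
  let G : Tr → Tr := fun v => norm (snd (findT O (code c) (fst (fst v)) (snd (fst v))
    (hstT TS O (code cq) (fst (fst v)) (snd (fst v)) (decodeT (snd v)))))
  have hG : FP O G := FP.norm' (FP.snd' (FP.findT' (FP.const' _) (FP.fst' (FP.fst' FP.id'))
    (FP.snd' (FP.fst' FP.id')) (FP.hstT' hF (FP.const' _) (FP.fst' (FP.fst' FP.id'))
      (FP.snd' (FP.fst' FP.id')) (FP.decodeT' (FP.snd' FP.id')))))
  obtain ⟨cG, QG, hcG⟩ := hG
  -- the time
  set Q : Polynomial ℕ := QC + QI.comp (4 * Polynomial.X + 3) +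
    QG.comp (20 * Polynomial.X + 10 + 4 * H.p.comp (5 * Polynomial.X + Polynomial.C i + 5)) +
    (100 * Polynomial.X + 100 + 100 * H.p.comp (5 * Polynomial.X + Polynomial.C i + 5)) with hQ
  obtain ⟨C', hC'⟩ := clock_bound Q κ D
  refine ⟨C', Prog.comp cI cC, Prog.comp cG (Prog.pair (Prog.comp cC Prog.fst) Prog.snd),
    fun x => ?_⟩
  have hC'x := hC' x.length
  rw [← hPe] at hC'x
  set n := x.length with hn
  set K : ℕ := 2 ^ P.eval n with hK
  obtain ⟨t1, ht1, he1⟩ := hC x
  rw [← hn, ← hK] at he1 ht1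
  have hx := size_enc_le x
  have hKpos : 1 ≤ K := Nat.one_le_two_pow
  have hQe : Q.eval (K + n) = QC.eval (K + n) + QI.eval (4 * (K + n) + 3) +
      QG.eval (20 * (K + n) + 10 + 4 * H.p.eval (5 * (K + n) + i + 5)) +
      (100 * (K + n) + 100 + 100 * H.p.eval (5 * (K + n) + i + 5)) := by
    simp only [hQ, Polynomial.eval_add, Polynomial.eval_mul, Polynomial.eval_comp,
      Polynomial.eval_X, Polynomial.eval_C, Polynomial.eval_ofNat]
  refine ⟨ins K K i x, ?_, fun y hy => ?_⟩
  · obtain ⟨t2, ht2, he2⟩ := hI (node (num K) (enc x))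
    simp only [fst_node, snd_node, insT_eq, len_num] at he2
    refine ⟨_, ?_, Eval.comp he1 he2⟩
    have h1 : QI.eval (size (node (num K) (enc x))) ≤ QI.eval (4 * (K + n) + 3) := by
      refine poly_mono _ ?_
      simp only [size, size_num]
      omega
    show _ ≤ C' * 2 ^ n ^ (κ + 2)
    omega
  · have h1 := hH _ _ hy
    simp only [zi_ins, zK_ins, zN_ins, zx_ins, hi, mach_sval] at h1
    obtain ⟨h2, h3⟩ := chT_sound hTS _ _ _ _ _ h1
    simp only [len_num] at h2 h3
    have hD1 : (size (code c) + 10) * (C * 2 ^ n ^ (κ + 1)) + 10 ≤ K ∧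
        (size (code cq) + 10) * (4 * (C * 2 ^ n ^ (κ + 1)) + 1) + 10 ≤ K := by
      have e1 : 1 ≤ 2 ^ n ^ (κ + 1) := Nat.one_le_two_pow
      have e2 := hclk n
      rw [← hK] at e2
      generalize 2 ^ n ^ (κ + 1) = N at e1 e2 ⊢
      have e3 : D * N = (size (code c) + 10) * (C * N) + 10 * N +
          ((size (code cq) + 10) * (4 * (C * N) + N) + 10 * N) := by rw [hD]; ring
      have e4 : (size (code cq) + 10) * (4 * (C * N) + 1) ≤
          (size (code cq) + 10) * (4 * (C * N) + N) := Nat.mul_le_mul_left _ (by omega)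
      constructor
      · omega
      · omega
    have hD0 : C * 2 ^ n ^ (κ + 1) ≤ K := by
      refine le_trans ?_ hD1.1
      refine le_trans ?_ (Nat.le_add_right _ _)
      exact Nat.le_mul_of_pos_left _ (by omega)
    obtain ⟨w, hw, hfind⟩ := find_spec (S := S) (T := T) (c := c) (x := x)
      (τ := C * 2 ^ n ^ (κ + 1)) (K := K) (fun h hh => hc x h hh) hD0 hD1.1 hD1.2 h2 h3
    refine ⟨w, ?_, hw⟩
    obtain ⟨t2, ht2, he2⟩ := hcG (node (node (num K) (enc x)) (enc y))
    have hGe : G (node (node (num K) (enc x)) (enc y)) = enc w := by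
      simp only [G, fst_node, snd_node, findT_eq]
      rw [hfind, snd_node, norm_eq, dec_enc]
    rw [hGe] at he2
    refine ⟨_, ?_, Eval.comp (Eval.pair (Eval.comp (Eval.fst (node (enc x) (enc y))) he1)
      (Eval.snd (node (enc x) (enc y)))) he2⟩
    have hyl : y.length ≤ H.p.eval (5 * (K + n) + i + 5) := by
      refine hy.1.trans (poly_mono _ ?_)
      rw [ins_length]
      omega
    have hys := size_enc_le y
    have h4 : QG.eval (size (node (node (num K) (enc x)) (enc y))) ≤
        QG.eval (20 * (K + n) + 10 + 4 * H.p.eval (5 * (K + n) + i + 5)) := by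
      refine poly_mono _ ?_
      simp only [size, size_num]
      omega
    show _ ≤ C' * 2 ^ n ^ (κ + 2)
    simp only [size] at h4 ht2 ⊢
    omega

end Pool.Agent.H43.RT
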